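import Mathlib

/-!
# Three-torsion in multidegree `(1,1,1,1,1)` of `B_3(A_5(ℤ))`

We disprove the divisibility statement of problem MP_426edc_al: for a torsion element of
`B_ℓ(A_n(ℤ))` of degree `m` with respect to `x_j`, the order need not divide `m`.
The witness is the class of `[x_4, x_5 [[x_1,x_2],x_3]]` in `B_3(A_5(ℤ))`, of additive order `3`,
whose degree with respect to every variable is `1`.
-/

namespace Pool.Agent.Results.MP_426edc_al.TorsionOrder

/-- `A n` is the free unital associative ring `ℤ⟨x_1, …, x_n⟩`. -/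
abbrev A (n : ℕ) : Type := FreeAlgebra ℤ (Fin n)

/-- The lower central series of `A n` as a Lie ring: `L n 1 = A n`, and `L n (k+1)` is the
additive subgroup spanned by all `a b - b a` with `a ∈ A n` and `b ∈ L n k`
(for `k ≥ 1`; the value at `0` is a dummy value that is never used). -/
def L (n : ℕ) : ℕ → AddSubgroup (A n)
  | 0 => ⊤
  | 1 => ⊤
  | (k + 2) => AddSubgroup.closure {z | ∃ a b : A n, b ∈ L n (k + 1) ∧ z = a * b - b * a}

/-- `B n ℓ = L n ℓ / L n (ℓ+1)`. -/
abbrev B (n ℓ : ℕ) : Type := (L n ℓ) ⧸ (L n (ℓ + 1)).addSubgroupOf (L n ℓ)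

/-- The monomial `x_{w_1} ⋯ x_{w_r}` attached to a word `w`. -/
def mon {n : ℕ} (w : List (Fin n)) : A n := (w.map (FreeAlgebra.ι ℤ)).prod

/-- The component of `A n` of multidegree `μ`: the additive span of the monomials in which
each `x_i` occurs exactly `μ i` times. -/
def homog (n : ℕ) (μ : Fin n → ℕ) : AddSubgroup (A n) :=
  AddSubgroup.closure {z | ∃ w : List (Fin n), (∀ i, w.count i = μ i) ∧ z = mon w}

/-- The component `B_ℓ[μ]`: the image in `B n ℓ` of the elements of `L n ℓ` of multidegree `μ`. -/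
def Bcomp (n ℓ : ℕ) (μ : Fin n → ℕ) : AddSubgroup (B n ℓ) :=
  ((homog n μ).addSubgroupOf (L n ℓ)).map (QuotientAddGroup.mk' _)

/-- `T ∈ B n ℓ` has degree `m` with respect to `x_j`: it lies in the sum of the components
`B_ℓ[μ]` with `μ j = m`. -/
def HasDegree (n ℓ : ℕ) (j : Fin n) (m : ℕ) (T : B n ℓ) : Prop :=
  T ∈ ⨆ μ : {μ : Fin n → ℕ // μ j = m}, Bcomp n ℓ μ.1

/-! ### Membership lemmas -/

/-- commutator, local abbreviation used only in proofs -/
def br {n : ℕ} (a b : A n) : A n := a * b - b * a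

theorem br_mem {n k : ℕ} (a b : A n) (hb : b ∈ L n (k + 1)) : br a b ∈ L n (k + 2) :=
  AddSubgroup.subset_closure ⟨a, b, hb, rfl⟩

theorem mem1 {n : ℕ} (a : A n) : a ∈ L n 1 := trivial

theorem mem2 {n : ℕ} (a b : A n) : br a b ∈ L n 2 := br_mem a b (mem1 b)

theorem mem3 {n : ℕ} (a b c : A n) : br a (br b c) ∈ L n 3 := br_mem a _ (mem2 b c)

theorem mem4 {n : ℕ} (a b c d : A n) : br a (br b (br c d)) ∈ L n 4 := br_mem a _ (mem3 b c d)

theorem mem3' {n : ℕ} (a b c d : A n) : br a (br b (br c d)) ∈ L n 3 := by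
  exact mem3 a b (br c d)

theorem mem5' {n : ℕ} (a b c d e : A n) : br a (br b (br c (br d e))) ∈ L n 4 :=
  mem4 a b c (br d e)

/-- `t a b c d e = [d, e [[a,b],c]]` -/
def t {n : ℕ} (a b c d e : A n) : A n := br d (e * br (br a b) c)

theorem t_mem3 {n : ℕ} (a b c d e : A n) : t a b c d e ∈ L n 3 := by
  have key : t a b c d e =
      br (d * c * b) (br a e) - br (d * c) (br a (b * e)) - br (c * b) (br a (e * d))
      - br (d * b) (br a (c * e))
      + br d (br (c * a * b - c * b * a + b * a * c) e) - br d (br (b * c) (e * a))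
      + br c (br (a * b) (e * d)) - br c (br b (e * d * a))
      + br b (br (a * c) (e * d)) - br b (br c (e * a * d)) := by
    simp only [t, br]
    noncomm_ring
  rw [key]
  have h := @mem3 n
  refine AddSubgroup.sub_mem _ (AddSubgroup.add_mem _ (AddSubgroup.sub_mem _
    (AddSubgroup.add_mem _ (AddSubgroup.sub_mem _ (AddSubgroup.add_mem _
    (AddSubgroup.sub_mem _ (AddSubgroup.sub_mem _ (AddSubgroup.sub_mem _ (h _ _ _) (h _ _ _))
    (h _ _ _)) (h _ _ _)) (h _ _ _)) (h _ _ _)) (h _ _ _)) (h _ _ _)) (h _ _ _)) (h _ _ _)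


/-- the class in `A n / L n 4` -/
def q {n : ℕ} (x : A n) : A n ⧸ L n 4 := (x : A n ⧸ L n 4)

theorem q_add {n : ℕ} (x y : A n) : q (x + y) = q x + q y := rfl

theorem q_eq_zero {n : ℕ} {x : A n} : q x = 0 ↔ x ∈ L n 4 := QuotientAddGroup.eq_zero_iff x

theorem rel_ab {n : ℕ} (a b c d e : A n) : q (t a b c d e) + q (t b a c d e) = 0 := by
  rw [← q_add, q_eq_zero]
  have : t a b c d e + t b a c d e = 0 := by simp only [t, br]; noncomm_ring
  rw [this]; exact AddSubgroup.zero_mem _

theorem rel_de {n : ℕ} (a b c d e : A n) : q (t a b c d e) + q (t a b c e d) = 0 := by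
  rw [← q_add, q_eq_zero]
  have : t a b c d e + t a b c e d = br e (br d (br c (br b a))) + br (d * e) (br c (br b a)) := by
    simp only [t, br]; noncomm_ring
  rw [this]
  exact AddSubgroup.add_mem _ (mem5' _ _ _ _ _) (mem4 _ _ _ _)

theorem rel_ce {n : ℕ} (a b c d e : A n) : q (t a b c d e) + q (t a b e d c) = 0 := by
  rw [← q_add, q_eq_zero]
  have : t a b c d e + t a b e d c
      = - br d (br (e * c) (br a b)) - br d (br c (br e (br a b))) := by
    simp only [t, br]; noncomm_ring
  rw [this]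
  exact AddSubgroup.sub_mem _ (AddSubgroup.neg_mem _ (mem4 _ _ _ _)) (mem5' _ _ _ _ _)

theorem rel_J {n : ℕ} (a b c d e : A n) :
    q (t a b c d e) + q (t b c a d e) + q (t c a b d e) = 0 := by
  rw [← q_add, ← q_add, q_eq_zero]
  have : t a b c d e + t b c a d e + t c a b d e = 0 := by simp only [t, br]; noncomm_ring
  rw [this]; exact AddSubgroup.zero_mem _

theorem rel_sum {n : ℕ} (s r q' p u : A n) :
    q (t s r q' p u) + q (t u r q' p s) + q (t s r u p q') + q (t q' r u p s)
      + q (t s q' u p r) + q (t r q' u p s) = 0 := by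
  simp only [← q_add]
  rw [q_eq_zero]
  have : t s r q' p u + t u r q' p s + t s r u p q' + t q' r u p s
      + t s q' u p r + t r q' u p s =
      br p (br q' (br r (s * u))) + br p (br u (br r (s * q'))) + br p (br u (br q' (s * r)))
      + br p (br u (br q' (br r s))) + br p (br q' (br u (br r s)))
      + br p (br r (br u (br q' s))) := by
    simp only [t, br]; noncomm_ring
  rw [this]
  exact AddSubgroup.add_mem _ (AddSubgroup.add_mem _ (AddSubgroup.add_mem _
    (AddSubgroup.add_mem _ (AddSubgroup.add_mem _ (mem4 _ _ _ _) (mem4 _ _ _ _)) (mem4 _ _ _ _))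
    (mem5' _ _ _ _ _)) (mem5' _ _ _ _ _)) (mem5' _ _ _ _ _)

theorem rel_pair {n : ℕ} (a b c d e : A n) : q (t a b c d e) + q (t e c a d b) = 0 := by
  have h := rel_sum e b c d a
  have h1 := rel_ce e b c d a
  have h2 := rel_ab b c a d e
  have e1 : q (t a b c d e) + q (t e c a d b) =
    (q (t e b c d a) + q (t a b c d e) + q (t e b a d c) + q (t c b a d e)
      + q (t e c a d b) + q (t b c a d e))
      - (q (t e b c d a) + q (t e b a d c)) - (q (t b c a d e) + q (t c b a d e)) := by abel
  rw [e1, h, h1, h2]; simp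

theorem rel_rot {n : ℕ} (a b c d e : A n) : q (t b c a d e) = q (t a b c d e) := by
  -- t(b,c,a,d,e) = -t(b,c,d,a,e) etc
  have h1 := rel_ce b c a d e      -- t b c a d e = - t b c e d a
  have h2 := rel_de b c e d a      -- t b c e d a = - t b c e a d
  have h3 := rel_ce b c e a d      -- t b c e a d = - t b c d a e
  have h4 := rel_pair b c d a e    -- t b c d a e = - t e d b a c
  have h5 := rel_ce e d b a c      -- t e d b a c = - t e d c a b
  have h6 := rel_de e d c a b      -- t e d c a b = - t e d c b a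
  have h7 := rel_ce e d c b a      -- t e d c b a = - t e d a b c
  have h7' := rel_ce e d b a c
  have h8 := rel_de e d b a c      -- t e d b a c = - t e d b c a
  have h9 := rel_pair e d b c a    -- t e d b c a = - t a b e c d
  have h10 := rel_de a b e c d     -- t a b e c d = - t a b e d c
  have h11 := rel_ce a b e d c     -- t a b e d c = - t a b c d e
  have e1 : q (t b c a d e) = - q (t b c e d a) := eq_neg_of_add_eq_zero_left h1
  have e2 : q (t b c e d a) = - q (t b c e a d) := eq_neg_of_add_eq_zero_left h2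
  have e3 : q (t b c e a d) = - q (t b c d a e) := eq_neg_of_add_eq_zero_left h3
  have e4 : q (t b c d a e) = - q (t e d b a c) := eq_neg_of_add_eq_zero_left h4
  have e5 : q (t e d b a c) = - q (t e d b c a) := eq_neg_of_add_eq_zero_left h8
  have e6 : q (t e d b c a) = - q (t a b e c d) := eq_neg_of_add_eq_zero_left h9
  have e7 : q (t a b e c d) = - q (t a b e d c) := eq_neg_of_add_eq_zero_left h10
  have e8 : q (t a b e d c) = - q (t a b c d e) := eq_neg_of_add_eq_zero_left h11
  rw [e1, e2, e3, e4, e5, e6, e7, e8]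
  simp

theorem three_t {n : ℕ} (a b c d e : A n) : (3 : ℕ) • t a b c d e ∈ L n 4 := by
  have h := rel_J a b c d e
  rw [rel_rot b c a d e, rel_rot a b c d e] at h
  rw [← q_eq_zero]
  have : q ((3 : ℕ) • t a b c d e) = q (t a b c d e) + q (t a b c d e) + q (t a b c d e) := by
    rw [← q_add, ← q_add]; congr 1; abel
  rw [this]; exact h

/-! ### The functional mod 3 -/

/-- the words on which the functional takes the value `1` -/
def posW : List (List (Fin 5)) :=
  [[0, 4, 2, 3, 1], [1, 3, 0, 4, 2], [1, 3, 2, 0, 4], [1, 4, 3, 2, 0],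
   [2, 0, 4, 3, 1], [2, 1, 4, 3, 0], [3, 0, 1, 4, 2], [3, 2, 0, 1, 4],
   [3, 2, 1, 4, 0], [4, 0, 1, 2, 3], [4, 3, 0, 1, 2]]

/-- the words on which the functional takes the value `-1` -/
def negW : List (List (Fin 5)) :=
  [[0, 4, 3, 2, 1], [1, 2, 0, 4, 3], [1, 2, 3, 0, 4], [1, 4, 2, 3, 0],
   [2, 0, 1, 4, 3], [2, 3, 0, 1, 4], [2, 3, 1, 4, 0], [3, 0, 4, 2, 1],
   [3, 1, 4, 2, 0], [4, 0, 1, 3, 2], [4, 2, 0, 1, 3]]

/-- value of the functional on a word, as a natural number mod 3 -/
def gN (w : List (Fin 5)) : ℕ := bif posW.elem w then 1 else bif negW.elem w then 2 else 0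

/-- all permutations of the five letters -/
def perms : List (List (Fin 5)) := List.permutations' [0, 1, 2, 3, 4]

/-- the signed sum of the values at the eight words of `[a,[b,[c,d]]]` -/
def octo (a b c d : List (Fin 5)) : ℕ :=
  gN (a ++ b ++ c ++ d) + 2 * gN (a ++ b ++ d ++ c) + 2 * gN (a ++ c ++ d ++ b)
    + gN (a ++ d ++ c ++ b) + 2 * gN (b ++ c ++ d ++ a) + gN (b ++ d ++ c ++ a)
    + gN (c ++ d ++ b ++ a) + 2 * gN (d ++ c ++ b ++ a)

/-- cut positions: lengths of the first three (nonempty) blocks -/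
def cuts : List (ℕ × ℕ × ℕ) := [(1, 1, 1), (1, 1, 2), (1, 2, 1), (2, 1, 1)]

def chk : Bool :=
  perms.all fun w => cuts.all fun p =>
    (octo (w.take p.1) ((w.drop p.1).take p.2.1) (((w.drop p.1).drop p.2.1).take p.2.2)
        (((w.drop p.1).drop p.2.1).drop p.2.2)) % 3 == 0

theorem chk_true : chk = true := by decide +kernel

theorem posneg_perm : ∀ w ∈ posW ++ negW, w ∈ perms := by decide +kernel

theorem gN_perm (w : List (Fin 5)) (h : gN w ≠ 0) : w.Perm [0, 1, 2, 3, 4] := by
  have hw : w ∈ posW ++ negW := by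
    rw [List.mem_append]
    by_contra hcon
    push Not at hcon
    apply h
    simp [gN, hcon.1, hcon.2]
  have := posneg_perm w hw
  exact List.mem_permutations'.mp this

theorem octo_eq_zero_of_nil (a b c d : List (Fin 5))
    (h : a = [] ∨ b = [] ∨ c = [] ∨ d = []) : octo a b c d % 3 = 0 := by
  rcases h with rfl | rfl | rfl | rfl <;> simp only [octo, List.append_nil, List.nil_append] <;>
    omega

theorem octo_zero (a b c d : List (Fin 5)) : octo a b c d % 3 = 0 := by
  by_cases hnil : a = [] ∨ b = [] ∨ c = [] ∨ d = []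
  · exact octo_eq_zero_of_nil a b c d hnil
  push Not at hnil
  obtain ⟨ha, hb, hc, hd⟩ := hnil
  by_cases hp : (a ++ b ++ c ++ d).Perm [0, 1, 2, 3, 4]
  · have hmem : (a ++ b ++ c ++ d) ∈ perms := List.mem_permutations'.mpr hp
    have hlen := hp.length_eq
    simp only [List.length_append, List.length_cons, List.length_nil] at hlen
    have ha' := List.length_pos_iff.mpr ha
    have hb' := List.length_pos_iff.mpr hb
    have hc' := List.length_pos_iff.mpr hc
    have hd' := List.length_pos_iff.mpr hd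
    have hcut : (a.length, b.length, c.length) ∈ cuts := by
      have : (a.length = 1 ∧ b.length = 1 ∧ c.length = 1) ∨
          (a.length = 1 ∧ b.length = 1 ∧ c.length = 2) ∨
          (a.length = 1 ∧ b.length = 2 ∧ c.length = 1) ∨
          (a.length = 2 ∧ b.length = 1 ∧ c.length = 1) := by omega
      rcases this with h | h | h | h <;> simp [cuts, h.1, h.2.1, h.2.2]
    have h1 := chk_true
    rw [chk, List.all_eq_true] at h1
    have h2 := h1 _ hmem
    rw [List.all_eq_true] at h2
    have h3 := h2 _ hcut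
    have e1 : (a ++ b ++ c ++ d).take a.length = a := by simp [List.append_assoc]
    have e2 : (a ++ b ++ c ++ d).drop a.length = b ++ c ++ d := by simp [List.append_assoc]
    simp only [e1, e2] at h3
    have e3 : (b ++ c ++ d).take b.length = b := by simp [List.append_assoc]
    have e4 : (b ++ c ++ d).drop b.length = c ++ d := by simp [List.append_assoc]
    simp only [e3, e4] at h3
    have e5 : (c ++ d).take c.length = c := by simp
    have e6 : (c ++ d).drop c.length = d := by simp
    simp only [e5, e6] at h3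
    simpa using h3
  · have key : ∀ w : List (Fin 5), w.Perm (a ++ b ++ c ++ d) → gN w = 0 := by
      intro w hw
      by_contra hne
      exact hp (hw.symm.trans (gN_perm w hne))
    have k1 := key (a ++ b ++ c ++ d) (List.Perm.refl _)
    have k2 := key (a ++ b ++ d ++ c) (by
      rw [List.append_assoc (a ++ b), List.append_assoc (a ++ b)]
      exact List.Perm.append_left _ List.perm_append_comm)
    have mk : ∀ w : List (Fin 5), (∀ x, w.count x = (a ++ b ++ c ++ d).count x) → gN w = 0 :=
      fun w hw => key w (List.perm_iff_count.mpr hw)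
    have k3 := mk (a ++ c ++ d ++ b) (by intro x; simp only [List.count_append]; omega)
    have k4 := mk (a ++ d ++ c ++ b) (by intro x; simp only [List.count_append]; omega)
    have k5 := mk (b ++ c ++ d ++ a) (by intro x; simp only [List.count_append]; omega)
    have k6 := mk (b ++ d ++ c ++ a) (by intro x; simp only [List.count_append]; omega)
    have k7 := mk (c ++ d ++ b ++ a) (by intro x; simp only [List.count_append]; omega)
    have k8 := mk (d ++ c ++ b ++ a) (by intro x; simp only [List.count_append]; omega)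
    simp only [octo, k1, k2, k3, k4, k5, k6, k7, k8]

/-- operators `(x_i h)(w) = h (w x_i)` on functions on words -/
def op (i : Fin 5) : Module.End ℤ (List (Fin 5) → ZMod 3) where
  toFun h w := h (w ++ [i])
  map_add' _ _ := rfl
  map_smul' _ _ := rfl

/-- the corresponding representation of the free algebra -/
noncomputable def rep : A 5 →ₐ[ℤ] Module.End ℤ (List (Fin 5) → ZMod 3) := FreeAlgebra.lift ℤ op

theorem rep_mon (w : List (Fin 5)) (h : List (Fin 5) → ZMod 3) (u : List (Fin 5)) :
    rep (mon w) h u = h (u ++ w) := by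
  induction w generalizing h u with
  | nil => simp [mon]
  | cons i w ih =>
    have : mon (i :: w) = FreeAlgebra.ι ℤ i * mon w := by simp [mon]
    rw [this, map_mul, Module.End.mul_apply]
    have hi : rep (FreeAlgebra.ι ℤ i) = op i := by simp [rep]
    rw [hi]
    change rep (mon w) h (u ++ [i]) = _
    rw [ih]
    simp

/-- the functional -/
noncomputable def F (x : A 5) : ZMod 3 := rep x (fun w => (gN w : ZMod 3)) []

theorem F_mon (w : List (Fin 5)) : F (mon w) = (gN w : ZMod 3) := by
  simp [F, rep_mon]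

theorem F_add (x y : A 5) : F (x + y) = F x + F y := by simp [F]

theorem F_sub (x y : A 5) : F (x - y) = F x - F y := by simp [F]

theorem F_neg (x : A 5) : F (-x) = - F x := by simp [F]

theorem F_zero : F 0 = 0 := by simp [F]

theorem mon_append {n : ℕ} (u v : List (Fin n)) : mon (u ++ v) = mon u * mon v := by
  simp [mon]

theorem mon_span {n : ℕ} (x : A n) : x ∈ AddSubgroup.closure (Set.range (mon (n := n))) := by
  induction x using FreeAlgebra.induction with
  | grade0 r =>
    have : algebraMap ℤ (A n) r = r • mon [] := by simp [mon]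
    rw [this]
    have h0 : (mon [] : A n) ∈ AddSubgroup.closure (Set.range (mon (n := n))) :=
      AddSubgroup.subset_closure (Set.mem_range_self _)
    exact AddSubgroup.zsmul_mem _ h0 r
  | grade1 i =>
    have h1 : (mon [i] : A n) ∈ AddSubgroup.closure (Set.range (mon (n := n))) :=
      AddSubgroup.subset_closure (Set.mem_range_self _)
    have e : FreeAlgebra.ι ℤ i = mon [i] := by simp [mon]
    rw [e]; exact h1
  | add a b ha hb => exact AddSubgroup.add_mem _ ha hb
  | mul a b ha hb =>
    refine AddSubgroup.closure_induction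
      (p := fun y _ => y * b ∈ AddSubgroup.closure (Set.range (mon (n := n)))) ?_ ?_ ?_ ?_ ha
    · rintro _ ⟨u, rfl⟩
      refine AddSubgroup.closure_induction
        (p := fun y _ => mon u * y ∈ AddSubgroup.closure (Set.range (mon (n := n))))
        ?_ ?_ ?_ ?_ hb
      · rintro _ ⟨v, rfl⟩
        exact AddSubgroup.subset_closure ⟨u ++ v, mon_append u v⟩
      · rw [mul_zero]; exact AddSubgroup.zero_mem _
      · intro y z _ _ hy hz; rw [mul_add]; exact AddSubgroup.add_mem _ hy hz
      · intro y _ hy; rw [mul_neg]; exact AddSubgroup.neg_mem _ hy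
    · rw [zero_mul]; exact AddSubgroup.zero_mem _
    · intro y z _ _ hy hz; rw [add_mul]; exact AddSubgroup.add_mem _ hy hz
    · intro y _ hy; rw [neg_mul]; exact AddSubgroup.neg_mem _ hy

/-- induction principle: additive property holding on monomials -/
theorem mon_induction {n : ℕ} (P : A n → Prop) (hm : ∀ w, P (mon w)) (h0 : P 0)
    (hadd : ∀ x y, P x → P y → P (x + y)) (hneg : ∀ x, P x → P (-x)) (x : A n) : P x := by
  refine AddSubgroup.closure_induction (p := fun y _ => P y) ?_ h0 (fun x y _ _ => hadd x y)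
    (fun x _ => hneg x) (mon_span x)
  rintro _ ⟨w, rfl⟩; exact hm w

theorem br_add_left {n : ℕ} (x y z : A n) : br (x + y) z = br x z + br y z := by
  simp only [br]; noncomm_ring
theorem br_add_right {n : ℕ} (x y z : A n) : br x (y + z) = br x y + br x z := by
  simp only [br]; noncomm_ring
theorem br_neg_left {n : ℕ} (x y : A n) : br (-x) y = - br x y := by
  simp only [br]; noncomm_ring
theorem br_neg_right {n : ℕ} (x y : A n) : br x (-y) = - br x y := by
  simp only [br]; noncomm_ring
theorem br_zero_left {n : ℕ} (x : A n) : br 0 x = 0 := by simp [br]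
theorem br_zero_right {n : ℕ} (x : A n) : br x 0 = 0 := by simp [br]

theorem F_mon4 (a b c d : List (Fin 5)) :
    F (br (mon a) (br (mon b) (br (mon c) (mon d)))) = 0 := by
  have e : br (mon a) (br (mon b) (br (mon c) (mon d))) =
      mon (a ++ b ++ c ++ d) - mon (a ++ b ++ d ++ c) - mon (a ++ c ++ d ++ b)
      + mon (a ++ d ++ c ++ b) - mon (b ++ c ++ d ++ a) + mon (b ++ d ++ c ++ a)
      + mon (c ++ d ++ b ++ a) - mon (d ++ c ++ b ++ a) := by
    simp only [mon_append, br]; noncomm_ring
  rw [e]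
  simp only [F_add, F_sub, F_mon]
  have h := octo_zero a b c d
  have h' : ((octo a b c d : ℕ) : ZMod 3) = 0 := by
    rw [ZMod.natCast_eq_zero_iff]; exact Nat.dvd_of_mod_eq_zero h
  have three : (3 : ZMod 3) = 0 := by decide
  simp only [octo, Nat.cast_add, Nat.cast_mul, Nat.cast_ofNat] at h'
  linear_combination h' - three * ((gN (a ++ b ++ d ++ c) : ZMod 3)
    + gN (a ++ c ++ d ++ b) + gN (b ++ c ++ d ++ a) + gN (d ++ c ++ b ++ a))

theorem F_br4 (a b c d : A 5) : F (br a (br b (br c d))) = 0 := by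
  revert b c d
  refine mon_induction (fun a => ∀ b c d, F (br a (br b (br c d))) = 0) ?_ ?_ ?_ ?_ a
  · intro u b
    refine mon_induction (fun b => ∀ c d, F (br (mon u) (br b (br c d))) = 0) ?_ ?_ ?_ ?_ b
    · intro v c
      refine mon_induction (fun c => ∀ d, F (br (mon u) (br (mon v) (br c d))) = 0) ?_ ?_ ?_ ?_ c
      · intro w d
        refine mon_induction (fun d => F (br (mon u) (br (mon v) (br (mon w) d))) = 0)
          ?_ ?_ ?_ ?_ d
        · intro z; exact F_mon4 u v w z
        · simp [br_zero_right, F_zero]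
        · intro x y hx hy; simp only [br_add_right, F_add, hx, hy, add_zero]
        · intro x hx; simp only [br_neg_right, F_neg, hx, neg_zero]
      · intro d; simp [br_zero_left, br_zero_right, F_zero]
      · intro x y hx hy d; simp only [br_add_left, br_add_right, F_add, hx, hy, add_zero]
      · intro x hx d; simp only [br_neg_left, br_neg_right, F_neg, hx, neg_zero]
    · intro c d; simp [br_zero_left, br_zero_right, F_zero]
    · intro x y hx hy c d; simp only [br_add_left, br_add_right, F_add, hx, hy, add_zero]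
    · intro x hx c d; simp only [br_neg_left, br_neg_right, F_neg, hx, neg_zero]
  · intro b c d; simp [br_zero_left, F_zero]
  · intro x y hx hy b c d; simp only [br_add_left, F_add, hx, hy, add_zero]
  · intro x hx b c d; simp only [br_neg_left, F_neg, hx, neg_zero]

theorem F_L4 (x : A 5) (hx : x ∈ L 5 4) : F x = 0 := by
  have s2 : ∀ v ∈ L 5 2, ∀ a b : A 5, F (br a (br b v)) = 0 := by
    intro v hv
    refine AddSubgroup.closure_induction (p := fun v _ => ∀ a b : A 5, F (br a (br b v)) = 0)
      ?_ ?_ ?_ ?_ hv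
    · rintro _ ⟨c, d, -, rfl⟩ a b; exact F_br4 a b c d
    · intro a b; simp [br_zero_right, F_zero]
    · intro x y _ _ hx hy a b; simp only [br_add_right, F_add, hx, hy, add_zero]
    · intro x _ hx a b; simp only [br_neg_right, F_neg, hx, neg_zero]
  have s3 : ∀ v ∈ L 5 3, ∀ a : A 5, F (br a v) = 0 := by
    intro v hv
    refine AddSubgroup.closure_induction (p := fun v _ => ∀ a : A 5, F (br a v) = 0)
      ?_ ?_ ?_ ?_ hv
    · rintro _ ⟨b, c, hc, rfl⟩ a; exact s2 c hc a b
    · intro a; simp [br_zero_right, F_zero]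
    · intro x y _ _ hx hy a; simp only [br_add_right, F_add, hx, hy, add_zero]
    · intro x _ hx a; simp only [br_neg_right, F_neg, hx, neg_zero]
  refine AddSubgroup.closure_induction (p := fun v _ => F v = 0) ?_ F_zero ?_ ?_ hx
  · rintro _ ⟨a, b, hb, rfl⟩; exact s3 b hb a
  · intro x y _ _ hx hy; rw [F_add, hx, hy, add_zero]
  · intro x _ hx; rw [F_neg, hx, neg_zero]

/-- the witness `[x_4, x_5 [[x_1,x_2],x_3]]` -/
noncomputable def T0 : A 5 := t (mon [0]) (mon [1]) (mon [2]) (mon [3]) (mon [4])

theorem T0_expand : T0 =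
    mon [3, 4, 0, 1, 2] - mon [3, 4, 1, 0, 2] - mon [3, 4, 2, 0, 1] + mon [3, 4, 2, 1, 0]
    - mon [4, 0, 1, 2, 3] + mon [4, 1, 0, 2, 3] + mon [4, 2, 0, 1, 3] - mon [4, 2, 1, 0, 3] := by
  have m : ∀ a b c d e : Fin 5, mon [a, b, c, d, e] = mon [a] * mon [b] * mon [c] * mon [d] * mon [e] := by
    intro a b c d e
    simp [mon, mul_assoc]
  simp only [T0, t, br, m]
  noncomm_ring

theorem F_T0 : F T0 ≠ 0 := by
  rw [T0_expand]
  simp only [F_add, F_sub, F_mon]
  decide +kernel

theorem T0_not_mem : T0 ∉ L 5 4 := fun h => F_T0 (F_L4 T0 h)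

theorem T0_mem : T0 ∈ L 5 3 := t_mem3 _ _ _ _ _

theorem T0_homog : T0 ∈ homog 5 (fun _ => 1) := by
  rw [T0_expand]
  have h : ∀ w : List (Fin 5), (∀ i, w.count i = 1) → mon w ∈ homog 5 (fun _ => 1) :=
    fun w hw => AddSubgroup.subset_closure ⟨w, hw, rfl⟩
  refine AddSubgroup.sub_mem _ (AddSubgroup.add_mem _ (AddSubgroup.add_mem _
    (AddSubgroup.sub_mem _ (AddSubgroup.add_mem _ (AddSubgroup.sub_mem _
    (AddSubgroup.sub_mem _ (h _ ?_) (h _ ?_)) (h _ ?_)) (h _ ?_)) (h _ ?_)) (h _ ?_))
    (h _ ?_)) (h _ ?_) <;> decide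

/-- the class of `T0` in `B 5 3` -/
noncomputable def T : B 5 3 := QuotientAddGroup.mk ⟨T0, T0_mem⟩

theorem T_comp : T ∈ Bcomp 5 3 (fun _ => 1) :=
  ⟨⟨T0, T0_mem⟩, T0_homog, rfl⟩

theorem T_ne : T ≠ 0 := by
  intro h
  have := (QuotientAddGroup.eq_zero_iff (⟨T0, T0_mem⟩ : L 5 3)).mp h
  exact T0_not_mem this

theorem T_three : 3 • T = 0 := by
  have : (3 • T : B 5 3) = QuotientAddGroup.mk (3 • (⟨T0, T0_mem⟩ : L 5 3)) := rfl
  rw [this]
  refine (QuotientAddGroup.eq_zero_iff _).mpr ?_
  exact three_t _ _ _ _ _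

theorem T_order : addOrderOf T = 3 := by
  have : Fact (Nat.Prime 3) := ⟨Nat.prime_three⟩
  exact addOrderOf_eq_prime T_three T_ne

/-- **Result.** `B_3(A_5(ℤ))` has an element of additive order exactly `3` in multidegree
`(1,1,1,1,1)`. Consequently it is false that for all `n, ℓ ≥ 1`, all `j` and `m`, every torsion
element of `B_ℓ(A_n(ℤ))` of degree `m` with respect to `x_j` has order dividing `m`. -/
theorem result :
    (∃ T : B 5 3, T ∈ Bcomp 5 3 (fun _ => 1) ∧ addOrderOf T = 3) ∧
    ¬ (∀ n ℓ : ℕ, 1 ≤ n → 1 ≤ ℓ → ∀ (j : Fin n) (m : ℕ) (T : B n ℓ),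
        T ≠ 0 → IsOfFinAddOrder T → HasDegree n ℓ j m T → addOrderOf T ∣ m) := by
  refine ⟨⟨T, T_comp, T_order⟩, fun h => ?_⟩
  have hfin : IsOfFinAddOrder T := addOrderOf_pos_iff.mp (by rw [T_order]; norm_num)
  have hdeg : HasDegree 5 3 0 1 T :=
    AddSubgroup.mem_iSup_of_mem (⟨fun _ => 1, rfl⟩ : {μ : Fin 5 → ℕ // μ 0 = 1}) T_comp
  have := h 5 3 (by norm_num) (by norm_num) 0 1 T T_ne hfin hdeg
  rw [T_order] at this
  omega

end Pool.Agent.Results.MP_426edc_al.TorsionOrder
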